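import Mathlib
import Pool.Agent.H319R3.GW.Pub
import Pool.Agent.H319R3.GW.Bridge

open MeasureTheory Set Filter Topology H772R2.NS.Pub Pool.Agent.H319R3
open scoped InnerProductSpace ENNReal

/-- **Energy equality and well-posedness for generic time dependent viscosities, for all data.**
Let `Ω ⊆ ℝ³` be bounded and open, `ν > 0`, let `u₀ ∈ L²_σ(Ω)` and `f ∈ L²(0,T; L²(Ω)³)` for all `T`
be arbitrary, let `2 ≤ p ≤ 5` and let `Visc p` be the complete metric space of all
`λ ∈ L^p(0,∞)` with `λ ≥ 0`. There is a dense `G_δ` set `R` in `Visc p` such that for every `λ ∈ R`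
and every `T > 0` the problem with viscosity `ν + λ(t)` is well-posed on `[0,T]` in the class of
Leray-Hopf weak solutions: there is exactly one Leray-Hopf solution, it satisfies the energy
equality at every time and is continuous with values in `L²_σ`, and all Leray-Hopf solutions for
nearby viscosities, forces and initial velocities are close to it, with small energy defect. -/
theorem Pool.Agent.Results.MP_a38b17_an.GenericEnergyEquality.result :
    ∀ {Ω : Set R3}, IsOpen Ω → Bornology.IsBounded Ω → ∀ {ν : ℝ}, 0 < ν →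
      ∀ {u0 : L2 Ω R3}, u0 ∈ L2sigma Ω →
      ∀ {f : ℝ → L2 Ω R3}, (∀ T, 0 < T → MemLp f 2 (volume.restrict (Ioc 0 T))) →
      ∀ (p : ℝ≥0∞) [Fact (1 ≤ p)], 2 ≤ p → p ≤ 5 →
      ∃ R : Set (GV.Pub.Visc p), IsGδ R ∧ Dense R ∧ ∀ l ∈ R, ∀ T, 0 < T →
        GW.Pub.IsWellPosed Ω ν T (fun t => ν + l.fn t) f u0 := by
  intro Ω hΩ hb ν hν u0 h0 f hf p _ hp2 hp5
  exact GW.rough_pub hΩ hb hν h0 hf hp2 hp5
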